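import Mathlib
import Pool.Agent.H45.EGH.E9

/-! The Eisenbud-Green-Harris statement for homogeneous ideals which contain a regular sequence
of fewer than `n` quadrics, all but the first six of which are products of two linear forms over
the algebraic closure, in `n` variables, over any field. -/

set_option autoImplicit false

namespace Pool.Agent.Results.MP_237e17_al.AllButSixProducts

/-- **Theorem.** Let `K` be a field, `r < n`, and let `I` be a homogeneous ideal of
`K[x_1, ..., x_n]` which contains a regular sequence `f_1, ..., f_r` of quadratic forms such that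
`f_7, ..., f_r` are products of two linear forms over the algebraic closure of `K`. Then there is
a lex ideal `J` such that `(x_1 ^ 2, ..., x_r ^ 2) + J` and `I` have the same Hilbert function. -/
theorem result (K : Type) [Field K] (n r : ℕ) (hr : r < n)
    (I : Ideal (MvPolynomial (Fin n) K)) (f : Fin r → MvPolynomial (Fin n) K)
    (hI : ∀ p ∈ I, ∀ d : ℕ, MvPolynomial.homogeneousComponent d p ∈ I)
    (hf : ∀ i, (f i).IsHomogeneous 2) (hfI : ∀ i, f i ∈ I)
    (hreg : RingTheory.Sequence.IsRegular (MvPolynomial (Fin n) K) (List.ofFn f))
    (hprod : ∀ i : Fin r, 6 ≤ i.val → ∃ l m : MvPolynomial (Fin n) (AlgebraicClosure K),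
      l.IsHomogeneous 1 ∧ m.IsHomogeneous 1 ∧
        MvPolynomial.map (algebraMap K (AlgebraicClosure K)) (f i) = l * m) :
    ∃ J : Ideal (MvPolynomial (Fin n) K),
      (∀ p ∈ J, ∀ s ∈ p.support, MvPolynomial.monomial s (1 : K) ∈ J) ∧
      (∀ s t : Fin n →₀ ℕ, s.degree = t.degree →
          MvPolynomial.monomial s (1 : K) ∈ J →
          (MonomialOrder.lex : MonomialOrder (Fin n)).toSyn s ≤
            (MonomialOrder.lex : MonomialOrder (Fin n)).toSyn t →
          MvPolynomial.monomial t (1 : K) ∈ J) ∧
      ∀ d : ℕ,
        Module.finrank K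
          ↥(MvPolynomial.homogeneousSubmodule (Fin n) K d ⊓ Submodule.restrictScalars K I) =
        Module.finrank K
          ↥(MvPolynomial.homogeneousSubmodule (Fin n) K d ⊓
              Submodule.restrictScalars K
                (Ideal.span (Set.range fun i : Fin r =>
                  (MvPolynomial.X (Fin.castLE hr.le i) : MvPolynomial (Fin n) K) ^ 2) ⊔ J)) :=
  Pool.EGH.E9.egn_products K n r hr I f hI hf hfI hreg hprod

end Pool.Agent.Results.MP_237e17_al.AllButSixProducts
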