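import Mathlib

/-!
Sparsity of the exceptions to Philippon's inequality.

For an exceptional pair put N = |numerator of x y^B + 1|.  The failure of the inequality forces
H(x) and rad(N) to be at most small powers of H(y), and N > H(y)^(eps B).  Integers N up to Z with
rad(N) at most R are counted by an Euler product; for fixed x and N two different y, y' have
(y/y')^B = 1 modulo N, and lifting the exponent shows that they are in different classes modulo
2 rad(N) once they are large.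
-/

set_option autoImplicit false
set_option maxHeartbeats 1000000

namespace Pool.Agent.Results.MP_05f553_nt.SparseExceptions

/-- The left-hand side sum is the logarithm of the numerator. -/
lemma lhs_eq (r : ℚ) (hr : r ≠ 0) :
    -(∑ p ∈ r.num.natAbs.primeFactors, Real.log ((padicNorm p r : ℚ) : ℝ))
      = Real.log (r.num.natAbs : ℝ) := by
  have hn : r.num ≠ 0 := Rat.num_ne_zero.mpr hr
  have hn' : r.num.natAbs ≠ 0 := Int.natAbs_ne_zero.mpr hn
  rw [Real.log_nat_eq_sum_factorization, Finsupp.sum, Nat.support_factorization,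
    ← Finset.sum_neg_distrib]
  refine Finset.sum_congr rfl ?_
  intro p hp
  have hpp : p.Prime := Nat.prime_of_mem_primeFactors hp
  have hpd : p ∣ r.num.natAbs := Nat.dvd_of_mem_primeFactors hp
  have : Fact p.Prime := ⟨hpp⟩
  have hpden : ¬ p ∣ r.den := by
    intro hd
    have h1 := r.reduced
    exact Nat.not_coprime_of_dvd_of_dvd hpp.one_lt hpd hd h1
  have hval : padicValRat p r = (r.num.natAbs.factorization p : ℤ) := by
    rw [padicValRat_def, padicValNat.eq_zero_of_not_dvd hpden, padicValInt,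
      Nat.factorization_def _ hpp]
    simp
  rw [padicNorm.eq_zpow_of_nonzero hr, hval]
  push_cast
  rw [Real.log_zpow]
  push_cast
  ring

/-- numerator and denominator of `z + 1`. -/
lemma add_one_num (z : ℚ) : (z + 1).num = z.num + z.den ∧ IsCoprime (z.num + z.den) (z.den : ℤ) := by
  have hc : IsCoprime (z.num + z.den) (z.den : ℤ) := by
    have h1 : IsCoprime z.num (z.den : ℤ) := Rat.isCoprime_num_den z
    simpa using h1.add_mul_left_left 1
  refine ⟨?_, hc⟩
  have hd : (0 : ℤ) < z.den := by exact_mod_cast z.pos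
  have h2 := Rat.num_div_eq_of_coprime (a := z.num + z.den) (b := z.den) hd
    (Int.isCoprime_iff_nat_coprime.mp hc)
  rw [← h2]
  congr 1
  push_cast
  have hd0 : (z.den : ℚ) ≠ 0 := by exact_mod_cast z.den_nz
  rw [add_div, div_self hd0, Rat.num_div_den]

/-- Two values `y, y'` giving the same numerator have ratio a `B`-th root of unity modulo it. -/
lemma dvd_pow_sub_pow_of_same (x y y' : ℚ) (hy' : y' ≠ 0) (B N : ℕ)
    (h : (x * y ^ B + 1).num.natAbs = N) (h' : (x * y' ^ B + 1).num.natAbs = N) :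
    (N : ℤ) ∣ (y / y').num ^ B - ((y / y').den : ℤ) ^ B := by
  obtain ⟨h1, h2⟩ := add_one_num (x * y ^ B)
  obtain ⟨h1', h2'⟩ := add_one_num (x * y' ^ B)
  rw [h1] at h
  rw [h1'] at h'
  set z := x * y ^ B with hz
  set z' := x * y' ^ B with hz'
  set U := (y / y').num with hU
  set W := ((y / y').den : ℤ) with hW
  have hNz : (N : ℤ) ∣ z.num + z.den := by rw [← h]; exact Int.natAbs_dvd.mpr dvd_rfl
  have hNz' : (N : ℤ) ∣ z'.num + z'.den := by rw [← h']; exact Int.natAbs_dvd.mpr dvd_rfl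
  have hc : IsCoprime (N : ℤ) (z.den : ℤ) := h2.of_isCoprime_of_dvd_left hNz
  have hc' : IsCoprime (N : ℤ) (z'.den : ℤ) := h2'.of_isCoprime_of_dvd_left hNz'
  have hW0 : (W : ℚ) ≠ 0 := by rw [hW]; exact_mod_cast (y / y').den_nz
  have hzd : (z.den : ℚ) ≠ 0 := by exact_mod_cast z.den_nz
  have hzd' : (z'.den : ℚ) ≠ 0 := by exact_mod_cast z'.den_nz
  have hrho : y / y' = (U : ℚ) / (W : ℚ) := by
    rw [hU, hW]; push_cast; exact (Rat.num_div_den _).symm
  have hy1 : y = y' * ((U : ℚ) / (W : ℚ)) := by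
    rw [← hrho]; field_simp
  have hzz : z = z' * ((U : ℚ) / (W : ℚ)) ^ B := by
    rw [hz, hz', hy1]; ring
  have hcross : (z.num : ℚ) * z'.den * W ^ B = U ^ B * z'.num * z.den := by
    have e1 : z = (z.num : ℚ) / z.den := (Rat.num_div_den z).symm
    have e2 : z' = (z'.num : ℚ) / z'.den := (Rat.num_div_den z').symm
    rw [div_pow] at hzz
    have hWB : (W : ℚ) ^ B ≠ 0 := pow_ne_zero _ hW0
    have h3 : (z.num : ℚ) / z.den = (z'.num : ℚ) / z'.den * ((U : ℚ) ^ B / W ^ B) := by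
      rw [← e1, ← e2]; exact hzz
    field_simp at h3
    linarith
  have hcrossZ : z.num * z'.den * W ^ B = U ^ B * z'.num * z.den := by exact_mod_cast hcross
  have hdvd : (N : ℤ) ∣ (z.den : ℤ) * ((z'.den : ℤ) * (U ^ B - W ^ B)) := by
    have e : (z.den : ℤ) * ((z'.den : ℤ) * (U ^ B - W ^ B)) =
        U ^ B * z.den * (z'.num + z'.den) - W ^ B * z'.den * (z.num + z.den) := by
      linear_combination (-1 : ℤ) * hcrossZ + 2 * hcrossZ
    rw [e]
    exact dvd_sub (hNz'.mul_left _) (hNz.mul_left _)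
  exact hc'.dvd_of_dvd_mul_left (hc.dvd_of_dvd_mul_left hdvd)

/-- lifting the exponent -/
lemma lte (N B : ℕ) (U W M : ℤ) (hUW : IsCoprime U W)
    (hM : ∀ p : ℕ, p.Prime → p ∣ N → (p : ℤ) ∣ M) (hM4 : 2 ∣ N → (4 : ℤ) ∣ M)
    (hMd : M ∣ U - W) (hN : (N : ℤ) ∣ U ^ B - W ^ B) :
    (N : ℤ) ∣ (B : ℤ) * (U - W) := by
  rw [← Int.natAbs_dvd_natAbs, Int.natAbs_natCast, Nat.dvd_iff_prime_pow_dvd_dvd]
  intro p k hp hpk
  rcases Nat.eq_zero_or_pos k with rfl | hk
  · simp
  have hpN : p ∣ N := (dvd_pow_self p hk.ne').trans hpk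
  have hpM : (p : ℤ) ∣ U - W := (hM p hp hpN).trans hMd
  have hpp : Prime (p : ℤ) := Nat.prime_iff_prime_int.mp hp
  have hpU : ¬ (p : ℤ) ∣ U := by
    intro hpu
    have hpw : (p : ℤ) ∣ W := by
      have := dvd_sub hpu hpM
      simpa using this
    have := hUW.isUnit_of_dvd' hpu hpw
    exact hpp.not_isUnit this
  have hpow : ((p : ℤ) ^ k) ∣ U ^ B - W ^ B := by
    refine dvd_trans ?_ hN
    exact_mod_cast hpk
  have hgoal : ((p : ℤ) ^ k) ∣ (B : ℤ) * (U - W) := by
    rw [pow_dvd_iff_le_emultiplicity] at hpow ⊢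
    rw [emultiplicity_mul hpp]
    rcases hp.eq_two_or_odd' with rfl | hodd
    · have h4 : (4 : ℤ) ∣ U - W := (hM4 hpN).trans hMd
      have := Int.two_pow_sub_pow' (x := U) (y := W) B h4 (by exact_mod_cast hpU)
      push_cast at hpow ⊢
      rw [this] at hpow
      rw [add_comm]; exact hpow
    · have := Int.emultiplicity_pow_sub_pow hp hodd hpM hpU B
      rw [this] at hpow
      rw [add_comm]
      rw [Int.natCast_emultiplicity]
      exact hpow
  have := Int.natAbs_dvd_natAbs.mpr hgoal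
  rwa [Int.natAbs_pow, Int.natAbs_natCast] at this

/-- height of a rational as a natural number -/
def H (r : ℚ) : ℕ := max r.num.natAbs r.den

lemma H_pos (r : ℚ) : 1 ≤ H r := le_trans r.pos (le_max_right _ _)

lemma abs_num_div_le (y y' : ℚ) (hy : y ≠ 0) (hy' : y' ≠ 0) :
    (y / y').num.natAbs ≤ H y * H y' ∧ (y / y').den ≤ H y * H y' := by
  have hyn : y.num ≠ 0 := Rat.num_ne_zero.mpr hy
  have hyn' : y'.num ≠ 0 := Rat.num_ne_zero.mpr hy'
  have hyd : (y.den : ℤ) ≠ 0 := by exact_mod_cast y.den_nz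
  have hyd' : (y'.den : ℤ) ≠ 0 := by exact_mod_cast y'.den_nz
  have e : y / y' = Rat.divInt (y.num * y'.den) (y.den * y'.num) := by
    rw [Rat.divInt_eq_div]
    push_cast
    have e1 : y = (y.num : ℚ) / y.den := (Rat.num_div_den y).symm
    have e2 : y' = (y'.num : ℚ) / y'.den := (Rat.num_div_den y').symm
    have h1 : (y.num : ℚ) ≠ 0 := by exact_mod_cast hyn
    have h2 : (y'.num : ℚ) ≠ 0 := by exact_mod_cast hyn'
    have h3 : (y.den : ℚ) ≠ 0 := by exact_mod_cast hyd
    have h4 : (y'.den : ℚ) ≠ 0 := by exact_mod_cast hyd'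
    rw [eq_div_iff (mul_ne_zero h3 h2)]
    calc y / y' * (y.den * y'.num) = (y * y.den) / y' * y'.num := by ring
      _ = y.num / y' * y'.num := by rw [Rat.mul_den_eq_num]
      _ = y.num / y' * (y' * y'.den) := by rw [Rat.mul_den_eq_num]
      _ = y.num * y'.den := by field_simp
  constructor
  · have h1 : (y / y').num ∣ y.num * y'.den := by
      rw [e]; exact Rat.num_dvd _ (mul_ne_zero hyd hyn')
    have h2 := Int.natAbs_le_of_dvd_ne_zero h1 (mul_ne_zero hyn hyd')
    rw [Int.natAbs_mul, Int.natAbs_natCast] at h2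
    exact h2.trans (Nat.mul_le_mul (le_max_left _ _) (le_max_right _ _))
  · have h1 : ((y / y').den : ℤ) ∣ y.den * y'.num := by
      rw [e]; exact Rat.den_dvd _ _
    have h2 := Int.natAbs_le_of_dvd_ne_zero h1 (mul_ne_zero hyd hyn')
    rw [Int.natAbs_mul, Int.natAbs_natCast, Int.natAbs_natCast] at h2
    exact h2.trans (Nat.mul_le_mul (le_max_right _ _) (le_max_left _ _))

/-- the modulus attached to `N` -/
def modulus (N : ℕ) : ℕ := (if 2 ∣ N then 2 else 1) * ∏ p ∈ N.primeFactors, p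

lemma modulus_pos (N : ℕ) : 0 < modulus N := by
  unfold modulus
  apply Nat.mul_pos
  · split_ifs <;> norm_num
  · exact Finset.prod_pos fun p hp => (Nat.prime_of_mem_primeFactors hp).pos

lemma modulus_le (N : ℕ) : modulus N ≤ 2 * ∏ p ∈ N.primeFactors, p := by
  unfold modulus
  apply Nat.mul_le_mul_right
  split_ifs <;> norm_num

lemma prime_dvd_modulus {N p : ℕ} (hN : N ≠ 0) (hp : p.Prime) (h : p ∣ N) : p ∣ modulus N := by
  unfold modulus
  exact (Finset.dvd_prod_of_mem (fun p => p) (Nat.mem_primeFactors.mpr ⟨hp, h, hN⟩)).mul_left _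

lemma four_dvd_modulus {N : ℕ} (hN : N ≠ 0) (h : 2 ∣ N) : 4 ∣ modulus N := by
  unfold modulus
  rw [if_pos h, show 4 = 2 * 2 by norm_num]
  exact Nat.mul_dvd_mul_left 2
    (Finset.dvd_prod_of_mem (fun p => p) (Nat.mem_primeFactors.mpr ⟨Nat.prime_two, h, hN⟩))

lemma dvd_of_prime_dvd_modulus {N p : ℕ} (hp : p.Prime) (h : p ∣ modulus N) : p ∣ N := by
  unfold modulus at h
  rcases (Nat.Prime.dvd_mul hp).mp h with h | h
  · split_ifs at h with h2
    · exact h.trans h2
    · exact absurd (Nat.le_of_dvd one_pos h) (not_le.mpr hp.one_lt)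
  · rw [hp.prime.dvd_finsetProd_iff] at h
    obtain ⟨q, hq, hpq⟩ := h
    rw [(Nat.prime_dvd_prime_iff_eq hp (Nat.prime_of_mem_primeFactors hq)).mp hpq]
    exact Nat.dvd_of_mem_primeFactors hq

/-- coprimality of numerator and denominator of a ratio with the modulus -/
lemma coprime_modulus (N B : ℕ) (hB : 1 ≤ B) (U W : ℤ) (hUW : IsCoprime U W)
    (hN : (N : ℤ) ∣ U ^ B - W ^ B) :
    IsCoprime U (modulus N : ℤ) ∧ IsCoprime W (modulus N : ℤ) := by
  have key : ∀ p : ℕ, p.Prime → p ∣ N → ¬ (p : ℤ) ∣ U ∧ ¬ (p : ℤ) ∣ W := by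
    intro p hp hpN
    have hpp : Prime (p : ℤ) := Nat.prime_iff_prime_int.mp hp
    have hd : (p : ℤ) ∣ U ^ B - W ^ B := dvd_trans (by exact_mod_cast hpN) hN
    constructor
    · intro hpu
      have h1 : (p : ℤ) ∣ U ^ B := dvd_pow hpu (by omega)
      have h2 : (p : ℤ) ∣ W ^ B := by
        have := dvd_sub h1 hd; simpa using this
      exact hpp.not_isUnit (hUW.isUnit_of_dvd' hpu (hpp.dvd_of_dvd_pow h2))
    · intro hpw
      have h1 : (p : ℤ) ∣ W ^ B := dvd_pow hpw (by omega)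
      have h2 : (p : ℤ) ∣ U ^ B := by
        have := dvd_add hd h1; simpa using this
      exact hpp.not_isUnit (hUW.isUnit_of_dvd' (hpp.dvd_of_dvd_pow h2) hpw)
  constructor
  · rw [Int.isCoprime_iff_nat_coprime, Int.natAbs_natCast]
    apply Nat.Coprime.symm
    apply Nat.coprime_of_dvd
    intro p hp h1 h2
    exact (key p hp (dvd_of_prime_dvd_modulus hp h1)).1 (Int.natCast_dvd.mpr h2)
  · rw [Int.isCoprime_iff_nat_coprime, Int.natAbs_natCast]
    apply Nat.Coprime.symm
    apply Nat.coprime_of_dvd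
    intro p hp h1 h2
    exact (key p hp (dvd_of_prime_dvd_modulus hp h1)).2 (Int.natCast_dvd.mpr h2)

/-- the number of `y` with a given numerator `N` of `x y^B + 1` which are large. -/
lemma fiber_card (x : ℚ) (B N : ℕ) (hB : 1 ≤ B) (hN : N ≠ 0) (S : Finset ℚ)
    (hS : ∀ y ∈ S, y ≠ 0 ∧ (x * y ^ B + 1).num.natAbs = N)
    (hsep : ∀ y ∈ S, ∀ y' ∈ S, y ≠ y' → B * (2 * (H y * H y')) < N) :
    S.card ≤ 2 * ∏ p ∈ N.primeFactors, p := by
  refine le_trans ?_ (modulus_le N)
  rcases S.eq_empty_or_nonempty with rfl | ⟨y0, hy0⟩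
  · simp
  set M := modulus N with hM
  have : NeZero M := ⟨(modulus_pos N).ne'⟩
  let c : ℚ → ZMod M := fun y => ((y / y0).num : ZMod M) * ((y / y0).den : ZMod M)⁻¹
  have hinj : Set.InjOn c (S : Set ℚ) := by
    intro y hy y' hy' hcc
    by_contra hne
    rw [Finset.mem_coe] at hy hy'
    obtain ⟨hy00, hyN0⟩ := hS y0 hy0
    obtain ⟨hy1, hyN⟩ := hS y hy
    obtain ⟨hy1', hyN'⟩ := hS y' hy'
    have hd1 := dvd_pow_sub_pow_of_same x y y0 hy00 B N hyN hyN0
    have hd2 := dvd_pow_sub_pow_of_same x y' y0 hy00 B N hyN' hyN0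
    have hd3 := dvd_pow_sub_pow_of_same x y y' hy1' B N hyN hyN'
    have hcop1 := coprime_modulus N B hB _ _ (Rat.isCoprime_num_den (y / y0)) hd1
    have hcop2 := coprime_modulus N B hB _ _ (Rat.isCoprime_num_den (y' / y0)) hd2
    set u := (y / y0).num with hu
    set w := (y / y0).den with hw
    set u' := (y' / y0).num with hu'
    set w' := (y' / y0).den with hw'
    set U := (y / y').num with hU
    set W := (y / y').den with hW
    have hwinv : (w : ZMod M) * (w : ZMod M)⁻¹ = 1 := by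
      apply ZMod.coe_mul_inv_eq_one
      have := Int.isCoprime_iff_nat_coprime.mp hcop1.2
      simpa using this
    have hwinv' : (w' : ZMod M) * (w' : ZMod M)⁻¹ = 1 := by
      apply ZMod.coe_mul_inv_eq_one
      have := Int.isCoprime_iff_nat_coprime.mp hcop2.2
      simpa using this
    have hcross : (u : ZMod M) * w' = u' * w := by
      have h1 : (u : ZMod M) * (w : ZMod M)⁻¹ = u' * (w' : ZMod M)⁻¹ := hcc
      calc (u : ZMod M) * w' = (u * (w : ZMod M)⁻¹) * w' * w := by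
            rw [show (u : ZMod M) * (w : ZMod M)⁻¹ * w' * w
              = u * w' * (w * (w : ZMod M)⁻¹) by ring, hwinv, mul_one]
        _ = (u' * (w' : ZMod M)⁻¹) * w' * w := by rw [h1]
        _ = u' * w := by
            rw [show (u' : ZMod M) * (w' : ZMod M)⁻¹ * w' * w
              = u' * w * (w' * (w' : ZMod M)⁻¹) by ring, hwinv', mul_one]
    have hMd : (M : ℤ) ∣ u * w' - u' * w := by
      rw [← ZMod.intCast_zmod_eq_zero_iff_dvd] 
      push_cast
      rw [hcross]; ring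
    -- U * (u' w) = W * (u w')
    have hrel : U * (u' * w) = W * (u * w') := by
      have e1 : y / y0 = (u : ℚ) / w := (Rat.num_div_den _).symm
      have e2 : y' / y0 = (u' : ℚ) / w' := (Rat.num_div_den _).symm
      have e3 : y / y' = (U : ℚ) / W := (Rat.num_div_den _).symm
      have hu'0 : (u' : ℚ) ≠ 0 := by
        rw [hu']; exact_mod_cast Rat.num_ne_zero.mpr (div_ne_zero hy1' hy00)
      have hw0 : (w : ℚ) ≠ 0 := by exact_mod_cast (y / y0).den_nz
      have hw'0 : (w' : ℚ) ≠ 0 := by exact_mod_cast (y' / y0).den_nz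
      have hW0 : (W : ℚ) ≠ 0 := by exact_mod_cast (y / y').den_nz
      have e4 : y / y' = (y / y0) / (y' / y0) := by field_simp
      rw [e1, e2, e3] at e4
      field_simp at e4
      have : (U : ℚ) * (u' * w) = W * (u * w') := by linarith
      exact_mod_cast this
    have hMUW : (M : ℤ) ∣ U - W := by
      have h1 : (M : ℤ) ∣ (U - W) * (u' * w) := by
        have : (U - W) * (u' * w) = W * (u * w' - u' * w) := by linear_combination hrel
        rw [this]
        exact hMd.mul_left _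
      have h2 : IsCoprime (M : ℤ) (u' * w) := (IsCoprime.mul_left hcop2.1 hcop1.2).symm
      exact h2.dvd_of_dvd_mul_right h1
    have hfin := lte N B U W M (Rat.isCoprime_num_den (y / y'))
      (fun p hp hpN => by exact_mod_cast prime_dvd_modulus hN hp hpN)
      (fun h2 => by exact_mod_cast four_dvd_modulus hN h2) hMUW hd3
    have hUW : U - W ≠ 0 := by
      intro h0
      apply hne
      have e3 : y / y' = (U : ℚ) / W := (Rat.num_div_den _).symm
      have hW0 : (W : ℚ) ≠ 0 := by exact_mod_cast (y / y').den_nz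
      have hUWq : (U : ℚ) = W := by
        have : U = W := by omega
        rw [this]; push_cast; rfl
      rw [hUWq, div_self hW0] at e3
      exact (div_eq_one_iff_eq hy1').mp e3
    have hle := Int.natAbs_le_of_dvd_ne_zero hfin
      (mul_ne_zero (by exact_mod_cast (by omega : B ≠ 0)) hUW)
    rw [Int.natAbs_mul, Int.natAbs_natCast, Int.natAbs_natCast] at hle
    obtain ⟨ha, hb⟩ := abs_num_div_le y y' hy1 hy1'
    have hle2 : (U - W).natAbs ≤ 2 * (H y * H y') := by
      have : (U - (W : ℤ)).natAbs ≤ U.natAbs + W := by omega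
      omega
    have h3 := hsep y hy y' hy' hne
    have h4 : B * (U - (W : ℤ)).natAbs ≤ B * (2 * (H y * H y')) := Nat.mul_le_mul_left _ hle2
    omega
  calc S.card ≤ (Finset.univ : Finset (ZMod M)).card :=
        Finset.card_le_card_of_injOn c (fun _ _ => Finset.mem_univ _) hinj
    _ = M := by rw [Finset.card_univ, ZMod.card]

/-- the multiplicative function `m ↦ m ^ (-η)`. -/
noncomputable def fpow (η : ℝ) : ℕ →* ℝ where
  toFun m := (m : ℝ) ^ (-η)
  map_one' := by simp
  map_mul' m n := by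
    push_cast
    rw [Real.mul_rpow (by positivity) (by positivity)]

lemma euler_bound (η : ℝ) (hη : 0 < η) : ∃ K : ℝ, 0 < K ∧ ∀ r : ℕ, 1 ≤ r →
    ∏ p ∈ r.primeFactors, (1 - (p : ℝ) ^ (-η))⁻¹ ≤ K * (r : ℝ) ^ η := by
  set p0 : ℕ := ⌈(2 : ℝ) ^ (1 / η)⌉₊ with hp0
  set K0 : ℝ := (1 - (2 : ℝ) ^ (-η))⁻¹ with hK0
  have h2 : (2 : ℝ) ^ (-η) < 1 := Real.rpow_lt_one_of_one_lt_of_neg (by norm_num) (by linarith)
  have h2' : 0 < (2 : ℝ) ^ (-η) := by positivity
  have hK01 : 1 ≤ K0 := by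
    rw [hK0]; rw [one_le_inv₀ (by linarith)]; linarith
  have hpt : ∀ p : ℕ, p.Prime →
      (1 - (p : ℝ) ^ (-η))⁻¹ ≤ (if p < p0 then K0 else 1) * (p : ℝ) ^ η := by
    intro p hp
    have hp2 : (2 : ℝ) ≤ p := by exact_mod_cast hp.two_le
    have hp1 : (1 : ℝ) ≤ (p : ℝ) ^ η := Real.one_le_rpow (by linarith) hη.le
    have hlt : (p : ℝ) ^ (-η) ≤ 2 ^ (-η) :=
      Real.rpow_le_rpow_of_nonpos (by norm_num) hp2 (by linarith)
    have hpos : 0 < 1 - (p : ℝ) ^ (-η) := by linarith
    split_ifs with hc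
    · calc (1 - (p : ℝ) ^ (-η))⁻¹ ≤ K0 := by
            rw [hK0]; apply inv_anti₀ (by linarith); linarith
        _ = K0 * 1 := by ring
        _ ≤ K0 * (p : ℝ) ^ η := by gcongr
    · rw [one_mul]
      push Not at hc
      have h3 : (2 : ℝ) ^ (1 / η) ≤ p := by
        calc (2 : ℝ) ^ (1 / η) ≤ p0 := Nat.le_ceil _
          _ ≤ p := by exact_mod_cast hc
      have h4 : (2 : ℝ) ≤ (p : ℝ) ^ η := by
        calc (2 : ℝ) = ((2 : ℝ) ^ (1 / η)) ^ η := by
              rw [← Real.rpow_mul (by norm_num), one_div, inv_mul_cancel₀ hη.ne', Real.rpow_one]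
          _ ≤ (p : ℝ) ^ η := Real.rpow_le_rpow (by positivity) h3 hη.le
      have h5 : (p : ℝ) ^ (-η) ≤ 1 / 2 := by
        rw [Real.rpow_neg (by linarith), one_div]
        exact inv_anti₀ (by norm_num) h4
      calc (1 - (p : ℝ) ^ (-η))⁻¹ ≤ (1 / 2 : ℝ)⁻¹ := by
            apply inv_anti₀ (by norm_num); linarith
        _ = 2 := by norm_num
        _ ≤ _ := h4
  refine ⟨K0 ^ p0, by positivity, ?_⟩
  intro r hr
  calc ∏ p ∈ r.primeFactors, (1 - (p : ℝ) ^ (-η))⁻¹
      ≤ ∏ p ∈ r.primeFactors, ((if p < p0 then K0 else 1) * (p : ℝ) ^ η) := by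
        apply Finset.prod_le_prod
        · intro p hp
          have hpp := Nat.prime_of_mem_primeFactors hp
          have hp2 : (2 : ℝ) ≤ p := by exact_mod_cast hpp.two_le
          have hlt : (p : ℝ) ^ (-η) ≤ 2 ^ (-η) :=
            Real.rpow_le_rpow_of_nonpos (by norm_num) hp2 (by linarith)
          have hpos : 0 < 1 - (p : ℝ) ^ (-η) := by linarith
          positivity
        · intro p hp
          exact hpt p (Nat.prime_of_mem_primeFactors hp)
    _ = (∏ p ∈ r.primeFactors, (if p < p0 then K0 else 1)) * ∏ p ∈ r.primeFactors, (p : ℝ) ^ η :=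
        Finset.prod_mul_distrib
    _ ≤ K0 ^ p0 * (r : ℝ) ^ η := by
        gcongr
        · rw [Finset.prod_ite, Finset.prod_const, Finset.prod_const_one, mul_one]
          apply pow_le_pow_right₀ hK01
          calc (r.primeFactors.filter (fun p => p < p0)).card ≤ (Finset.range p0).card := by
                apply Finset.card_le_card
                intro p hp
                rw [Finset.mem_filter] at hp
                exact Finset.mem_range.mpr hp.2
            _ = p0 := Finset.card_range _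
        · rw [Real.finsetProd_rpow]
          · apply Real.rpow_le_rpow
            · apply Finset.prod_nonneg; intro p _; positivity
            · rw [← Nat.cast_prod]
              exact_mod_cast Nat.le_of_dvd (by omega) (Nat.prod_primeFactors_dvd r)
            · exact hη.le
          · intro p _; positivity

/-- number of integers up to `Z` with given set of prime factors. -/
lemma count_fixed (η : ℝ) (hη : 0 < η) (Z : ℝ) (hZ : 1 ≤ Z) (s : Finset ℕ)
    (hs : ∀ p ∈ s, p.Prime) (T : Finset ℕ)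
    (hT : ∀ N ∈ T, 1 ≤ N ∧ (N : ℝ) ≤ Z ∧ N.primeFactors = s) :
    (T.card : ℝ) ≤ Z ^ η * ∏ p ∈ s, (1 - (p : ℝ) ^ (-η))⁻¹ := by
  have hE := (EulerProduct.summable_and_hasSum_factoredNumbers_prod_filter_prime_geometric
    (f := fpow η) (by
      intro p hp
      have hp2 : (1 : ℝ) < p := by exact_mod_cast hp.one_lt
      change ‖(p : ℝ) ^ (-η)‖ < 1
      rw [Real.norm_of_nonneg (by positivity)]
      exact Real.rpow_lt_one_of_one_lt_of_neg hp2 (by linarith)) s).2
  have hfil : s.filter Nat.Prime = s := Finset.filter_true_of_mem hs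
  rw [hfil] at hE
  have hE' : HasSum (Set.indicator (Nat.factoredNumbers s) (fun m : ℕ => (m : ℝ) ^ (-η)))
      (∏ p ∈ s, (1 - (p : ℝ) ^ (-η))⁻¹) := by
    rw [← hasSum_subtype_iff_indicator]
    exact hE
  have hsum : ∑ N ∈ T, (N : ℝ) ^ (-η) ≤ ∏ p ∈ s, (1 - (p : ℝ) ^ (-η))⁻¹ := by
    calc ∑ N ∈ T, (N : ℝ) ^ (-η)
        = ∑ N ∈ T, Set.indicator (Nat.factoredNumbers s) (fun m : ℕ => (m : ℝ) ^ (-η)) N := by
          apply Finset.sum_congr rfl
          intro N hN
          obtain ⟨h1, h2, h3⟩ := hT N hN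
          rw [Set.indicator_of_mem]
          rw [Nat.mem_factoredNumbers]
          refine ⟨by omega, ?_⟩
          intro p hp
          rw [← h3]
          exact Nat.mem_primeFactors_iff_mem_primeFactorsList.mpr hp
      _ ≤ _ := by
          apply sum_le_hasSum T _ hE'
          intro N _
          apply Set.indicator_nonneg
          intro m _
          positivity
  calc (T.card : ℝ) = ∑ N ∈ T, 1 := by simp
    _ ≤ ∑ N ∈ T, Z ^ η * (N : ℝ) ^ (-η) := by
        apply Finset.sum_le_sum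
        intro N hN
        obtain ⟨h1, h2, h3⟩ := hT N hN
        have hN0 : (0 : ℝ) < N := by exact_mod_cast h1
        rw [Real.rpow_neg hN0.le, ← div_eq_mul_inv, one_le_div (by positivity)]
        exact Real.rpow_le_rpow hN0.le h2 hη.le
    _ = Z ^ η * ∑ N ∈ T, (N : ℝ) ^ (-η) := by rw [Finset.mul_sum]
    _ ≤ _ := by gcongr

/-- the radical -/
def rad (N : ℕ) : ℕ := ∏ p ∈ N.primeFactors, p

lemma rad_pos (N : ℕ) : 0 < rad N :=
  Finset.prod_pos fun _ hp => (Nat.prime_of_mem_primeFactors hp).pos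

lemma count_rad (η : ℝ) (hη : 0 < η) : ∃ C : ℝ, 0 < C ∧ ∀ Z R : ℝ, 1 ≤ Z → 1 ≤ R →
    ∀ T : Finset ℕ, (∀ N ∈ T, 1 ≤ N ∧ (N : ℝ) ≤ Z ∧ (rad N : ℝ) ≤ R) →
    (T.card : ℝ) ≤ C * Z ^ η * R ^ (1 + η) := by
  obtain ⟨K, hK, hKb⟩ := euler_bound η hη
  refine ⟨K, hK, ?_⟩
  intro Z R hZ hR T hT
  have hmaps : ∀ N ∈ T, rad N ∈ Finset.Icc 1 ⌊R⌋₊ := by
    intro N hN
    rw [Finset.mem_Icc]
    exact ⟨rad_pos N, Nat.le_floor (hT N hN).2.2⟩
  have hcard := Finset.card_eq_sum_card_fiberwise hmaps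
  have hfib : ∀ r ∈ Finset.Icc 1 ⌊R⌋₊,
      (((T.filter (fun N => rad N = r)).card : ℕ) : ℝ) ≤ Z ^ η * (K * R ^ η) := by
    intro r hr
    rw [Finset.mem_Icc] at hr
    have hrR : (r : ℝ) ≤ R := (Nat.cast_le.mpr hr.2).trans (Nat.floor_le (by linarith))
    have h1 : (((T.filter (fun N => rad N = r)).card : ℕ) : ℝ) ≤
        Z ^ η * ∏ p ∈ r.primeFactors, (1 - (p : ℝ) ^ (-η))⁻¹ := by
      apply count_fixed η hη Z hZ r.primeFactors
        (fun p hp => Nat.prime_of_mem_primeFactors hp)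
      intro N hN
      rw [Finset.mem_filter] at hN
      obtain ⟨hN1, hN2⟩ := hN
      obtain ⟨ha, hb, _⟩ := hT N hN1
      refine ⟨ha, hb, ?_⟩
      rw [← hN2]
      unfold rad
      exact (Nat.primeFactors_prod (fun p hp => Nat.prime_of_mem_primeFactors hp)).symm
    refine h1.trans ?_
    gcongr
    exact (hKb r hr.1).trans (by gcongr)
  calc (T.card : ℝ)
      = ((∑ r ∈ Finset.Icc 1 ⌊R⌋₊, (T.filter (fun N => rad N = r)).card : ℕ) : ℝ) := by
        rw [hcard]
    _ = ∑ r ∈ Finset.Icc 1 ⌊R⌋₊, (((T.filter (fun N => rad N = r)).card : ℕ) : ℝ) := by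
        push_cast; rfl
    _ ≤ ∑ r ∈ Finset.Icc 1 ⌊R⌋₊, Z ^ η * (K * R ^ η) := Finset.sum_le_sum hfib
    _ = ⌊R⌋₊ * (Z ^ η * (K * R ^ η)) := by
        rw [Finset.sum_const, Nat.card_Icc, nsmul_eq_mul]; simp
    _ ≤ R * (Z ^ η * (K * R ^ η)) := by
        gcongr
        exact Nat.floor_le (by linarith)
    _ = K * Z ^ η * R ^ (1 + η) := by
        rw [Real.rpow_add (by linarith), Real.rpow_one]; ring

lemma H_cast (r : ℚ) : max |((r.num : ℤ) : ℝ)| ((r.den : ℕ) : ℝ) = (H r : ℝ) := by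
  unfold H
  rw [Nat.cast_max, Nat.cast_natAbs, Int.cast_abs]

/-- the inequality with `β = 0`. -/
def Ineq0 (B : ℕ) (α ε : ℝ) (x y : ℚ) : Prop :=
  -(∑ p ∈ (x * y ^ B + 1).num.natAbs.primeFactors,
      Real.log ((padicNorm p (x * y ^ B + 1) : ℚ) : ℝ))
    ≤ α * (B : ℝ) * Real.log (max |((x.num : ℤ) : ℝ)| ((x.den : ℕ) : ℝ))
      + ε * (B : ℝ) * Real.log (max |((y.num : ℤ) : ℝ)| ((y.den : ℕ) : ℝ))
      + (B : ℝ) * (α * (B : ℝ) + ε) *
          (0 + ∑ p ∈ (x * y ^ B + 1).num.natAbs.primeFactors, Real.log (p : ℝ))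

/-- the numerator -/
def Nm (B : ℕ) (x y : ℚ) : ℕ := (x * y ^ B + 1).num.natAbs

lemma num_le (B : ℕ) (x y : ℚ) (h : x * y ^ B ≠ -1) :
    Nm B x y ≤ 2 * (H x * H y ^ B) := by
  have e : x * y ^ B + 1 = Rat.divInt (x.num * y.num ^ B + x.den * y.den ^ B)
      (x.den * y.den ^ B) := by
    rw [Rat.divInt_eq_div]
    push_cast
    have h3 : (y.den : ℚ) ≠ 0 := by exact_mod_cast y.den_nz
    have h4 : (x.den : ℚ) ≠ 0 := by exact_mod_cast x.den_nz
    rw [eq_div_iff (mul_ne_zero h4 (pow_ne_zero _ h3))]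
    rw [← Rat.mul_den_eq_num x, ← Rat.mul_den_eq_num y]
    ring
  have hden : (x.den * y.den ^ B : ℤ) ≠ 0 := by
    have h3 : (y.den : ℤ) ≠ 0 := by exact_mod_cast y.den_nz
    have h4 : (x.den : ℤ) ≠ 0 := by exact_mod_cast x.den_nz
    exact mul_ne_zero h4 (pow_ne_zero _ h3)
  have h0 : x.num * y.num ^ B + x.den * y.den ^ B ≠ 0 := by
    intro h0
    rw [h0, Rat.zero_divInt] at e
    apply h; linarith
  have hd : (x * y ^ B + 1).num ∣ x.num * y.num ^ B + x.den * y.den ^ B := by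
    rw [e]; exact Rat.num_dvd _ hden
  have h1 := Int.natAbs_le_of_dvd_ne_zero hd h0
  unfold Nm
  refine h1.trans ?_
  refine (Int.natAbs_add_le _ _).trans ?_
  rw [Int.natAbs_mul, Int.natAbs_mul, Int.natAbs_pow, Int.natAbs_pow, Int.natAbs_natCast,
    Int.natAbs_natCast]
  have a1 : x.num.natAbs ≤ H x := le_max_left _ _
  have a2 : x.den ≤ H x := le_max_right _ _
  have a3 : y.num.natAbs ≤ H y := le_max_left _ _
  have a4 : y.den ≤ H y := le_max_right _ _
  calc x.num.natAbs * y.num.natAbs ^ B + x.den * y.den ^ B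
      ≤ H x * H y ^ B + H x * H y ^ B := by gcongr
    _ = 2 * (H x * H y ^ B) := by ring

lemma exc_log (B : ℕ) (α ε : ℝ) (x y : ℚ) (h : x * y ^ B ≠ -1) (hI : ¬ Ineq0 B α ε x y) :
    Nm B x y ≠ 0 ∧
    α * B * Real.log (H x) + ε * B * Real.log (H y)
      + B * (α * B + ε) * Real.log (rad (Nm B x y)) < Real.log (Nm B x y) ∧
    Real.log (Nm B x y) ≤ Real.log 2 + Real.log (H x) + B * Real.log (H y) := by
  have hne : x * y ^ B + 1 ≠ 0 := by
    intro h0; apply h; linarith
  have hN : Nm B x y ≠ 0 := by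
    unfold Nm
    exact Int.natAbs_ne_zero.mpr (Rat.num_ne_zero.mpr hne)
  refine ⟨hN, ?_, ?_⟩
  · unfold Ineq0 at hI
    rw [lhs_eq _ hne, H_cast, H_cast] at hI
    push Not at hI
    have e : ∑ p ∈ (x * y ^ B + 1).num.natAbs.primeFactors, Real.log (p : ℝ)
        = Real.log (rad (Nm B x y)) := by
      unfold rad Nm
      rw [Nat.cast_prod, Real.log_prod]
      intro p hp
      have := (Nat.prime_of_mem_primeFactors hp).pos
      positivity
    rw [e, zero_add] at hI
    exact hI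
  · have h1 := num_le B x y h
    have h2 : ((Nm B x y : ℕ) : ℝ) ≤ 2 * ((H x : ℝ) * (H y : ℝ) ^ B) := by exact_mod_cast h1
    have hx1 : (0 : ℝ) < H x := by exact_mod_cast H_pos x
    have hy1 : (0 : ℝ) < H y := by exact_mod_cast H_pos y
    have hN0 : (0 : ℝ) < Nm B x y := by exact_mod_cast Nat.pos_of_ne_zero hN
    have h3 := Real.log_le_log hN0 h2
    rw [Real.log_mul (by norm_num) (by positivity), Real.log_mul hx1.ne' (by positivity),
      Real.log_pow] at h3
    linarith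

/-- rationals of height at most `n`. -/
noncomputable def ballQ (n : ℕ) : Finset ℚ :=
  ((Finset.Icc (-(n : ℤ)) n) ×ˢ (Finset.Icc 1 n)).image (fun q : ℤ × ℕ => (q.1 : ℚ) / (q.2 : ℚ))

lemma mem_ballQ (n : ℕ) (r : ℚ) (h : H r ≤ n) : r ∈ ballQ n := by
  unfold ballQ
  rw [Finset.mem_image]
  refine ⟨(r.num, r.den), ?_, Rat.num_div_den r⟩
  have h1 : r.num.natAbs ≤ n := (le_max_left _ _).trans h
  have h2 : r.den ≤ n := (le_max_right _ _).trans h
  rw [Finset.mem_product, Finset.mem_Icc, Finset.mem_Icc]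
  refine ⟨⟨by omega, by omega⟩, r.pos, h2⟩

lemma card_ballQ (n : ℕ) : (ballQ n).card ≤ 3 * n ^ 2 := by
  unfold ballQ
  refine Finset.card_image_le.trans ?_
  rw [Finset.card_product, Int.card_Icc, Nat.card_Icc]
  rcases Nat.eq_zero_or_pos n with rfl | hn
  · simp
  · have : ((n : ℤ) + 1 - -(n : ℤ)).toNat = 2 * n + 1 := by omega
    rw [this]
    have : n + 1 - 1 = n := by omega
    rw [this]
    nlinarith

lemma gap (ε b α : ℝ) (hε0 : 0 < ε) (hε : ε < 1 / 2) (hB : 2 < ε * b) (hα : 1 ≤ α) (hb : 4 < b) :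
    (1 - ε) * b / (α * b - 1) + (1 - ε) / (α * b + ε) < 1 / α := by
  have h1 : 0 < α * b - 1 := by nlinarith
  have h2 : 0 < α * b + ε := by nlinarith
  have h3 : 0 < α := by linarith
  rw [div_add_div _ _ h1.ne' h2.ne', div_lt_div_iff₀ (by positivity) h3]
  have h4 : 0 < (ε * b - 2) * (α ^ 2 * b) := by
    apply mul_pos <;> [linarith; positivity]
  have h5 : 0 ≤ (α - 1) * b := by apply mul_nonneg <;> linarith
  have h6 : 0 < α * b := by positivity
  have h7 : 0 < ε * (α * b) := by positivity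
  have h8 : 0 ≤ (α - 1) * (α * b) := by apply mul_nonneg <;> linarith
  have h9 : 2 * α < ε * (α * b) := by nlinarith
  have h10 : 0 < ε * ε * (α * b) := by positivity
  have h11 : 0 < ε * (α ^ 2 * b) := by positivity
  have h12 : ε * α ≤ 1 / 2 * α := by nlinarith
  have h13 : 0 ≤ (α - 1) * (α * b) * ε := by positivity
  nlinarith

lemma main_count (ε : ℝ) (hε0 : 0 < ε) (hε : ε < 1 / 2) (B : ℕ) (hB : 2 < ε * B) (α : ℝ)
    (hα : 1 ≤ α) : ∃ C : ℝ, ∀ Y : ℝ, 1 ≤ Y → ∀ S : Finset (ℚ × ℚ),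
      (∀ q ∈ S, q.1 ≠ 0 ∧ q.2 ≠ 0 ∧ q.1 * q.2 ^ B ≠ -1 ∧ (H q.2 : ℝ) ≤ Y ∧
        ¬ Ineq0 B α ε q.1 q.2) →
      (S.card : ℝ) ≤ C * Y ^ (2 / α) := by
  set b : ℝ := (B : ℝ) with hb
  have hb4 : 4 < b := by nlinarith
  have hB1 : 1 ≤ B := by
    have : (1 : ℝ) ≤ (B : ℝ) := by rw [← hb]; linarith
    exact_mod_cast this
  have hl2 : 0 < Real.log 2 := Real.log_pos (by norm_num)
  have hab1 : 0 < α * b - 1 := by nlinarith
  have habe : 0 < α * b + ε := by nlinarith
  have hbabe : 0 < b * (α * b + ε) := by positivity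
  have hα0 : 0 < α := by linarith
  have heb : 0 < ε * b - 2 := by linarith
  have hgap := gap ε b α hε0 hε hB hα hb4
  set u : ℝ := (1 - ε) * b / (α * b - 1) with hu
  set v : ℝ := (1 - ε) / (α * b + ε) with hv
  have hu0 : 0 < u := by
    rw [hu]; apply div_pos _ hab1
    apply mul_pos <;> linarith
  have hv0 : 0 < v := by
    rw [hv]; apply div_pos _ habe
    linarith
  have h1α : 1 / α ≤ 1 := by rw [div_le_one hα0]; exact hα
  set η : ℝ := (2 / α - 2 * (u + v)) / (b + 1) with hη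
  have hη0 : 0 < η := by
    rw [hη]; apply div_pos _ (by linarith)
    have : 2 / α = 2 * (1 / α) := by ring
    rw [this]; linarith
  have hηb : η * (b + 1) = 2 / α - 2 * (u + v) := by
    rw [hη]; field_simp
  obtain ⟨C, hC, hCb⟩ := count_rad η hη0
  -- threshold
  set t0 : ℝ := Real.log (2 * b) / (ε * b - 2) with ht0
  have hl2b : 0 < Real.log (2 * b) := Real.log_pos (by linarith)
  have ht0pos : 0 < t0 := div_pos hl2b heb
  have ht0mul : (ε * b - 2) * t0 = Real.log (2 * b) := by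
    rw [ht0]; field_simp
  set n2 : ℕ := ⌊Real.exp t0⌋₊ with hn2
  set n1 : ℕ := ⌊Real.exp ((Real.log 2 + (1 - ε) * b * t0) / (α * b - 1))⌋₊ with hn1
  set C2 : ℝ := (((3 * n1 ^ 2) * (3 * n2 ^ 2) : ℕ) : ℝ) with hC2
  set K0 : ℝ := (2 + η) * (Real.log 2 / (b * (α * b + ε))) + 2 * (Real.log 2 / (α * b - 1))
    + η * (Real.log 2 + Real.log 2 / (α * b - 1)) with hK0
  refine ⟨C2 + 6 * C * Real.exp K0, ?_⟩
  intro Y hY S hS
  set L : ℝ := Real.log Y with hL
  have hL0 : 0 ≤ L := Real.log_nonneg hY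
  have hY0 : 0 < Y := by linarith
  -- basic estimates
  have hbasic : ∀ q ∈ S, Nm B q.1 q.2 ≠ 0 ∧ 0 ≤ Real.log (H q.1) ∧ 0 ≤ Real.log (H q.2) ∧
      Real.log (H q.2) ≤ L ∧
      (α * b - 1) * Real.log (H q.1) ≤ Real.log 2 + (1 - ε) * b * Real.log (H q.2) ∧
      b * (α * b + ε) * Real.log (rad (Nm B q.1 q.2))
        ≤ Real.log 2 + (1 - ε) * b * Real.log (H q.2) ∧
      ε * b * Real.log (H q.2) < Real.log (Nm B q.1 q.2) ∧
      Real.log (Nm B q.1 q.2) ≤ Real.log 2 + Real.log (H q.1) + b * Real.log (H q.2) := by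
    intro q hq
    obtain ⟨h1, h2, h3, h4, h5⟩ := hS q hq
    obtain ⟨h6, h7, h8⟩ := exc_log B α ε q.1 q.2 h3 h5
    rw [← hb] at h7 h8
    have hx0 : 0 ≤ Real.log (H q.1) := Real.log_nonneg (by exact_mod_cast H_pos q.1)
    have hy0 : 0 ≤ Real.log (H q.2) := Real.log_nonneg (by exact_mod_cast H_pos q.2)
    have hr0 : 0 ≤ Real.log (rad (Nm B q.1 q.2)) :=
      Real.log_nonneg (by exact_mod_cast rad_pos _)
    have hyL : Real.log (H q.2) ≤ L :=
      Real.log_le_log (by exact_mod_cast H_pos q.2) h4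
    have p1 : 0 ≤ b * (α * b + ε) * Real.log (rad (Nm B q.1 q.2)) := by positivity
    have p2 : 0 ≤ (α * b - 1) * Real.log (H q.1) := by positivity
    have p3 : 0 ≤ α * b * Real.log (H q.1) := by positivity
    refine ⟨h6, hx0, hy0, hyL, ?_, ?_, ?_, h8⟩
    · linarith
    · linarith
    · linarith
  -- split
  set S1 := S.filter (fun q => t0 ≤ Real.log (H q.2)) with hS1
  set S2 := S.filter (fun q => ¬ t0 ≤ Real.log (H q.2)) with hS2
  have hsplit : S.card = S1.card + S2.card := by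
    rw [hS1, hS2, Finset.card_filter_add_card_filter_not]
  -- bound for S2
  have hS2card : (S2.card : ℝ) ≤ C2 := by
    have hsub : S2 ⊆ ballQ n1 ×ˢ ballQ n2 := by
      intro q hq
      rw [hS2, Finset.mem_filter] at hq
      obtain ⟨hq1, hq2⟩ := hq
      push Not at hq2
      obtain ⟨b1, b2, b3, b4, b5, b6, b7, b8⟩ := hbasic q hq1
      rw [Finset.mem_product]
      constructor
      · apply mem_ballQ
        apply Nat.le_floor
        rw [← Real.log_le_iff_le_exp (by exact_mod_cast H_pos q.1), le_div_iff₀ hab1]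
        have : (1 - ε) * b * Real.log (H q.2) ≤ (1 - ε) * b * t0 := by
          apply mul_le_mul_of_nonneg_left hq2.le
          apply mul_nonneg <;> linarith
        linarith
      · apply mem_ballQ
        apply Nat.le_floor
        rw [← Real.log_le_iff_le_exp (by exact_mod_cast H_pos q.2)]
        exact hq2.le
    have h1 := Finset.card_le_card hsub
    rw [Finset.card_product] at h1
    rw [hC2]
    exact_mod_cast h1.trans (Nat.mul_le_mul (card_ballQ n1) (card_ballQ n2))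
  -- bound for S1
  set X : ℝ := Real.exp ((Real.log 2 + (1 - ε) * b * L) / (α * b - 1)) with hX
  set R : ℝ := Real.exp ((Real.log 2 + (1 - ε) * b * L) / (b * (α * b + ε))) with hR
  set Z : ℝ := Real.exp (Real.log 2 + (Real.log 2 + (1 - ε) * b * L) / (α * b - 1) + b * L)
    with hZ
  have hDnn : 0 ≤ Real.log 2 + (1 - ε) * b * L := by
    have : 0 ≤ (1 - ε) * b * L := by
      apply mul_nonneg _ hL0
      apply mul_nonneg <;> linarith
    linarith
  have hX1 : 1 ≤ X := by rw [hX]; exact Real.one_le_exp (by positivity)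
  have hR1 : 1 ≤ R := by rw [hR]; exact Real.one_le_exp (by positivity)
  have hZ1 : 1 ≤ Z := by rw [hZ]; exact Real.one_le_exp (by positivity)
  have hmono : ∀ q ∈ S, (1 - ε) * b * Real.log (H q.2) ≤ (1 - ε) * b * L := by
    intro q hq
    apply mul_le_mul_of_nonneg_left (hbasic q hq).2.2.2.1
    apply mul_nonneg <;> linarith
  have hHX : ∀ q ∈ S, Real.log (H q.1) ≤
      (Real.log 2 + (1 - ε) * b * L) / (α * b - 1) := by
    intro q hq
    rw [le_div_iff₀ hab1]
    have := (hbasic q hq).2.2.2.2.1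
    have := hmono q hq
    linarith
  have hradR : ∀ q ∈ S, (rad (Nm B q.1 q.2) : ℝ) ≤ R := by
    intro q hq
    rw [hR, ← Real.log_le_iff_le_exp (by exact_mod_cast rad_pos _), le_div_iff₀ hbabe]
    have := (hbasic q hq).2.2.2.2.2.1
    have := hmono q hq
    linarith
  have hNZ : ∀ q ∈ S, (Nm B q.1 q.2 : ℝ) ≤ Z := by
    intro q hq
    have hN0 := (hbasic q hq).1
    rw [hZ, ← Real.log_le_iff_le_exp (by exact_mod_cast Nat.pos_of_ne_zero hN0)]
    have h1 := (hbasic q hq).2.2.2.2.2.2.2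
    have h2 := hHX q hq
    have h3 : b * Real.log (H q.2) ≤ b * L :=
      mul_le_mul_of_nonneg_left (hbasic q hq).2.2.2.1 (by linarith)
    linarith
  set TN := S1.image (fun q => Nm B q.1 q.2) with hTN
  have hTNcard : (TN.card : ℝ) ≤ C * Z ^ η * R ^ (1 + η) := by
    apply hCb Z R hZ1 hR1
    intro N hN
    rw [hTN, Finset.mem_image] at hN
    obtain ⟨q, hq, rfl⟩ := hN
    have hqS : q ∈ S := (Finset.mem_filter.mp hq).1
    exact ⟨Nat.pos_of_ne_zero (hbasic q hqS).1, hNZ q hqS, hradR q hqS⟩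
  have hcount : S1.card ≤ (2 * ⌊R⌋₊) * (ballQ ⌊X⌋₊ ×ˢ TN).card := by
    apply Finset.card_le_mul_card_image_of_maps_to (f := fun q => (q.1, Nm B q.1 q.2))
    · intro q hq
      rw [Finset.mem_product]
      refine ⟨?_, Finset.mem_image_of_mem _ hq⟩
      have hqS : q ∈ S := (Finset.mem_filter.mp hq).1
      apply mem_ballQ
      apply Nat.le_floor
      rw [hX, ← Real.log_le_iff_le_exp (by exact_mod_cast H_pos q.1)]
      exact hHX q hqS
    · rintro ⟨x, N⟩ _
      rcases (S1.filter (fun q => (q.1, Nm B q.1 q.2) = (x, N))).eq_empty_or_nonempty with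
        he | ⟨q0, hq0⟩
      · rw [he]; simp
      rw [Finset.mem_filter] at hq0
      obtain ⟨hq01, hq02⟩ := hq0
      rw [Prod.mk.injEq] at hq02
      have hq0S : q0 ∈ S := (Finset.mem_filter.mp hq01).1
      have hinj : Set.InjOn Prod.snd
          ((S1.filter (fun q => (q.1, Nm B q.1 q.2) = (x, N)) : Finset (ℚ × ℚ)) : Set (ℚ × ℚ)) := by
        intro q hq q' hq' hqq
        rw [Finset.mem_coe, Finset.mem_filter, Prod.mk.injEq] at hq hq'
        exact Prod.ext (hq.2.1.trans hq'.2.1.symm) hqq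
      rw [← Finset.card_image_of_injOn hinj]
      have hNne : N ≠ 0 := by
        rw [← hq02.2]; exact (hbasic q0 hq0S).1
      refine (fiber_card x B N hB1 hNne _ ?_ ?_).trans ?_
      · intro y hy
        rw [Finset.mem_image] at hy
        obtain ⟨q, hq, rfl⟩ := hy
        rw [Finset.mem_filter, Prod.mk.injEq] at hq
        have hqS : q ∈ S := (Finset.mem_filter.mp hq.1).1
        refine ⟨(hS q hqS).2.1, ?_⟩
        rw [← hq.2.1]
        exact hq.2.2
      · intro y hy y' hy' _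
        rw [Finset.mem_image] at hy hy'
        obtain ⟨q, hq, rfl⟩ := hy
        obtain ⟨q', hq', rfl⟩ := hy'
        rw [Finset.mem_filter, Prod.mk.injEq] at hq hq'
        obtain ⟨hqS, hqt⟩ := Finset.mem_filter.mp hq.1
        obtain ⟨hqS', hqt'⟩ := Finset.mem_filter.mp hq'.1
        have c1 := (hbasic q hqS).2.2.2.2.2.2.1
        have c2 := (hbasic q' hqS').2.2.2.2.2.2.1
        rw [hq.2.2] at c1
        rw [hq'.2.2] at c2
        have hy1 : (0 : ℝ) < H q.2 := by exact_mod_cast H_pos q.2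
        have hy1' : (0 : ℝ) < H q'.2 := by exact_mod_cast H_pos q'.2
        have hlog : Real.log (b * (2 * ((H q.2 : ℝ) * (H q'.2 : ℝ)))) < Real.log N := by
          have e : b * (2 * ((H q.2 : ℝ) * (H q'.2 : ℝ))) = (2 * b) * (H q.2 * H q'.2) := by ring
          rw [e, Real.log_mul (by positivity) (by positivity),
            Real.log_mul hy1.ne' hy1'.ne', ← ht0mul]
          nlinarith
        have hNpos : (0 : ℝ) < N := by exact_mod_cast Nat.pos_of_ne_zero hNne
        have hlt := (Real.log_lt_log_iff (by positivity) hNpos).mp hlog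
        rw [hb] at hlt
        exact_mod_cast hlt
      · apply Nat.mul_le_mul_left
        apply Nat.le_floor
        have := hradR q0 hq0S
        rw [hq02.2] at this
        exact this
  have hS1card : (S1.card : ℝ) ≤ (2 * R) * ((3 * X ^ 2) * (C * Z ^ η * R ^ (1 + η))) := by
    have h1 : (S1.card : ℝ) ≤ (2 * (⌊R⌋₊ : ℝ)) * (((ballQ ⌊X⌋₊).card : ℝ) * (TN.card : ℝ)) := by
      rw [Finset.card_product] at hcount
      exact_mod_cast hcount
    refine h1.trans ?_
    have h2 : ((ballQ ⌊X⌋₊).card : ℝ) ≤ 3 * X ^ 2 := by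
      calc ((ballQ ⌊X⌋₊).card : ℝ) ≤ ((3 * ⌊X⌋₊ ^ 2 : ℕ) : ℝ) := by
            exact_mod_cast card_ballQ _
        _ = 3 * (⌊X⌋₊ : ℝ) ^ 2 := by push_cast; ring
        _ ≤ 3 * X ^ 2 := by
            have := Nat.floor_le (by linarith : 0 ≤ X)
            gcongr
    have h3 := Nat.floor_le (by linarith : 0 ≤ R)
    gcongr
  -- final estimate
  have hfinal : (2 * R) * ((3 * X ^ 2) * (C * Z ^ η * R ^ (1 + η)))
      ≤ 6 * C * Real.exp K0 * Y ^ (2 / α) := by
    have e1 : (2 * R) * ((3 * X ^ 2) * (C * Z ^ η * R ^ (1 + η)))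
        = 6 * C * (R * X ^ 2 * Z ^ η * R ^ (1 + η)) := by ring
    rw [e1, mul_assoc (6 * C)]
    apply mul_le_mul_of_nonneg_left _ (by positivity)
    have e2 : R * X ^ 2 * Z ^ η * R ^ (1 + η) = Real.exp (
        (2 + η) * ((Real.log 2 + (1 - ε) * b * L) / (b * (α * b + ε)))
        + 2 * ((Real.log 2 + (1 - ε) * b * L) / (α * b - 1))
        + η * (Real.log 2 + (Real.log 2 + (1 - ε) * b * L) / (α * b - 1) + b * L)) := by
      rw [hR, hX, hZ, ← Real.exp_mul, ← Real.exp_mul, ← Real.exp_nat_mul, ← Real.exp_add,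
        ← Real.exp_add, ← Real.exp_add]
      congr 1
      push_cast
      ring
    have e3 : Y ^ (2 / α) = Real.exp ((2 / α) * L) := by
      rw [Real.rpow_def_of_pos hY0, hL]; ring_nf
    rw [e2, e3, ← Real.exp_add]
    apply Real.exp_le_exp.mpr
    have e4 : (Real.log 2 + (1 - ε) * b * L) / (b * (α * b + ε))
        = Real.log 2 / (b * (α * b + ε)) + v * L := by
      rw [hv]; field_simp
    have e5 : (Real.log 2 + (1 - ε) * b * L) / (α * b - 1)
        = Real.log 2 / (α * b - 1) + u * L := by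
      rw [hu]; field_simp
    rw [e4, e5, hK0]
    have e6 : (2 + η) * v + 2 * u + η * (u + b) ≤ 2 / α := by
      have : (2 + η) * v + 2 * u + η * (u + b) = 2 * (u + v) + η * (u + v + b) := by ring
      rw [this]
      have h1 : η * (u + v + b) ≤ η * (b + 1) := by
        apply mul_le_mul_of_nonneg_left _ hη0.le
        linarith
      linarith
    have e7 := mul_le_mul_of_nonneg_right e6 hL0
    linarith
  have hYpow : 1 ≤ Y ^ (2 / α) := Real.one_le_rpow hY (by positivity)
  have hC2nn : 0 ≤ C2 := by rw [hC2]; positivity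
  calc (S.card : ℝ) = (S1.card : ℝ) + (S2.card : ℝ) := by rw [hsplit]; push_cast; rfl
    _ ≤ 6 * C * Real.exp K0 * Y ^ (2 / α) + C2 := add_le_add (hS1card.trans hfinal) hS2card
    _ ≤ (C2 + 6 * C * Real.exp K0) * Y ^ (2 / α) := by nlinarith

/-- Outside a set of at most `C * Y ^ (2 / α)` pairs, the inequality (with `β = 0`) holds for all
pairs `(x, y)` with `y` of height at most `Y`. -/
theorem result (ε : ℝ) (hε0 : 0 < ε) (hε : ε < 1 / 2) (B : ℕ) (hB : 2 < ε * B) (α : ℝ)
    (hα : 1 ≤ α) : ∃ C : ℝ, ∀ Y : ℝ, 1 ≤ Y → ∃ S : Finset (ℚ × ℚ),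
      (S.card : ℝ) ≤ C * Y ^ (2 / α) ∧
      ∀ x y : ℚ, x ≠ 0 → y ≠ 0 → x * y ^ B ≠ 1 → x * y ^ B ≠ -1 →
        max |((y.num : ℤ) : ℝ)| ((y.den : ℕ) : ℝ) ≤ Y → (x, y) ∉ S →
        -(∑ p ∈ (x * y ^ B + 1).num.natAbs.primeFactors,
            Real.log ((padicNorm p (x * y ^ B + 1) : ℚ) : ℝ))
          ≤ α * (B : ℝ) * Real.log (max |((x.num : ℤ) : ℝ)| ((x.den : ℕ) : ℝ))
            + ε * (B : ℝ) * Real.log (max |((y.num : ℤ) : ℝ)| ((y.den : ℕ) : ℝ))
            + (B : ℝ) * (α * (B : ℝ) + ε) *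
                (0 + ∑ p ∈ (x * y ^ B + 1).num.natAbs.primeFactors, Real.log (p : ℝ)) := by
  obtain ⟨C, hC⟩ := main_count ε hε0 hε B hB α hα
  refine ⟨C, ?_⟩
  intro Y hY
  set E : Set (ℚ × ℚ) := {q | q.1 ≠ 0 ∧ q.2 ≠ 0 ∧ q.1 * q.2 ^ B ≠ -1 ∧ (H q.2 : ℝ) ≤ Y ∧
        ¬ Ineq0 B α ε q.1 q.2} with hE
  have hfin : E.Finite := by
    by_contra hinf
    obtain ⟨n, hn⟩ := exists_nat_gt (C * Y ^ (2 / α))
    obtain ⟨T, hT1, hT2⟩ := (Set.not_finite.mp hinf).exists_subset_card_eq n
    have := hC Y hY T (fun q hq => hT1 hq)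
    rw [hT2] at this
    linarith
  refine ⟨hfin.toFinset, hC Y hY _ (fun q hq => by
    have := (Set.Finite.mem_toFinset hfin).mp hq
    exact this), ?_⟩
  intro x y hx hy _ hxy hyY hnot
  by_contra hcon
  apply hnot
  rw [Set.Finite.mem_toFinset, hE]
  refine ⟨hx, hy, hxy, ?_, hcon⟩
  rw [← H_cast]
  exact hyY

end Pool.Agent.Results.MP_05f553_nt.SparseExceptions
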