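import Mathlib
import Pool.Agent.H45.EG3.Main3

/-! The Eisenbud-Green-Harris statement for homogeneous ideals which contain a regular sequence
of three forms of arbitrary degrees, in any number of variables, over any field. -/

set_option autoImplicit false

namespace Pool.Agent.Results.MP_237e17_al.ThreeForms

/-- **Theorem.** Let `K` be a field, `n ≥ 3`, and let `I` be a homogeneous ideal of
`K[x_1, ..., x_n]` which contains a regular sequence of three forms `f_1, f_2, f_3` of degrees
`2 ≤ a_1 ≤ a_2 ≤ a_3`. Then there is a lex ideal `J` such that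
`(x_1 ^ a_1, x_2 ^ a_2, x_3 ^ a_3) + J` and `I` have the same Hilbert function. -/
theorem result (K : Type) [Field K] (n : ℕ) (hr : 3 ≤ n)
    (I : Ideal (MvPolynomial (Fin n) K)) (f : Fin 3 → MvPolynomial (Fin n) K) (a : Fin 3 → ℕ)
    (hI : ∀ p ∈ I, ∀ d : ℕ, MvPolynomial.homogeneousComponent d p ∈ I)
    (hmono : Monotone a) (ha : ∀ i, 2 ≤ a i) (hf : ∀ i, (f i).IsHomogeneous (a i))
    (hfI : ∀ i, f i ∈ I)
    (hreg : RingTheory.Sequence.IsRegular (MvPolynomial (Fin n) K) (List.ofFn f)) :
    ∃ J : Ideal (MvPolynomial (Fin n) K),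
      (∀ p ∈ J, ∀ s ∈ p.support, MvPolynomial.monomial s (1 : K) ∈ J) ∧
      (∀ s t : Fin n →₀ ℕ, s.degree = t.degree →
          MvPolynomial.monomial s (1 : K) ∈ J →
          (MonomialOrder.lex : MonomialOrder (Fin n)).toSyn s ≤
            (MonomialOrder.lex : MonomialOrder (Fin n)).toSyn t →
          MvPolynomial.monomial t (1 : K) ∈ J) ∧
      ∀ d : ℕ,
        Module.finrank K
          ↥(MvPolynomial.homogeneousSubmodule (Fin n) K d ⊓ Submodule.restrictScalars K I) =
        Module.finrank K
          ↥(MvPolynomial.homogeneousSubmodule (Fin n) K d ⊓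
              Submodule.restrictScalars K
                (Ideal.span (Set.range fun i : Fin 3 => MvPolynomial.X (Fin.castLE hr i) ^ a i)
                  ⊔ J)) :=
  Pool.EG3.main3 K n hr I f a hI hmono ha hf hfI hreg

end Pool.Agent.Results.MP_237e17_al.ThreeForms
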